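import Pool.Agent.Lib.H62w.Count2

/-!
Counting, two-sided form: predecessors in `[c x, x]` with the first hitting time `k` of `a`
between `s1 t` and `s2 t` up to a constant, and of size `2 ^ k a / 3 ^ (n t)` up to a constant
factor (`t` the number of blocks).
-/

set_option autoImplicit false
open Finset
namespace H62w

/-- Words of length `n` at `y` with sum in `[s1, s2]`. -/
def BB (M n s1 s2 y : ℕ) : Finset (List ℕ) :=
  (words M n).filter (fun l => va l y ∧ en l y % 3 ≠ 0 ∧ s1 ≤ l.sum ∧ l.sum ≤ s2)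

namespace Cnt

theorem BB_eq {M n s1 s2 : ℕ} (hs : 2 * 3 ^ n ≤ 2 ^ s1) (y : ℕ) :
    BB M n s1 s2 y = (PP M n y).filter (fun l => s1 ≤ l.sum ∧ l.sum ≤ s2) := by
  ext l
  unfold BB PP
  rw [mem_filter, mem_filter, mem_filter]
  constructor
  · rintro ⟨h1, h2, h3, h4, h5⟩
    refine ⟨⟨h1, h2, h3, ?_⟩, h4, h5⟩
    have h6 : 2 ^ s1 ≤ 2 ^ l.sum := Nat.pow_le_pow_right (by norm_num) h4
    have h7 : 0 < 3 ^ n := by positivity
    omega
  · rintro ⟨⟨h1, h2, h3, -⟩, h4, h5⟩
    exact ⟨h1, h2, h3, h4, h5⟩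

/-- admissible words at an integer with sum in `[s1, s2]` -/
def Bz (M n s1 s2 : ℕ) (y : ℤ) : Finset (List ℕ) :=
  (Pz M n y).filter (fun l => s1 ≤ l.sum ∧ l.sum ≤ s2)

theorem Bz_sub {M n s1 s2 : ℕ} (hs : 2 * 3 ^ n ≤ 2 ^ s1) {y : ℤ} {l : List ℕ}
    (hl : l ∈ Bz M n s1 s2 y) : l ∈ Qz M n y := by
  obtain ⟨h1, h2, h3⟩ := mem_filter.1 hl
  exact mem_filter.2 ⟨h1, hs.trans (Nat.pow_le_pow_right (by norm_num) h2)⟩

open Classical in
/-- the finite tree above `y`, stopped at size `X`, words with sum in `[s1, s2]` -/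
noncomputable def tree3 (M n s1 s2 X : ℕ) : ℕ → ℤ → Finset ℤ
  | 0, y => {y}
  | t + 1, y => if KK M n * ph M n y ≤ X then
      (Bz M n s1 s2 y).biUnion (fun l => tree3 M n s1 s2 X t (ez l y)) else {y}

section

variable {M n s1 s2 : ℕ} (hs : 2 * 3 ^ n ≤ 2 ^ s1)
include hs

theorem tree3_size (hn : 1 ≤ n) {X : ℕ} (t : ℕ) {y : ℤ} (hy : ph M n y ≤ X) {z : ℤ}
    (hz : z ∈ tree3 M n s1 s2 X t y) : ph M n z ≤ X := by
  induction t generalizing y with
  | zero => rw [tree3, mem_singleton] at hz; rw [hz]; exact hy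
  | succ t ih =>
    rw [tree3] at hz
    split_ifs at hz with h
    · rw [mem_biUnion] at hz
      obtain ⟨l, hl, hz⟩ := hz
      exact ih ((ph_step' hn (Qz_sub (Bz_sub hs hl))).trans h) hz
    · rw [mem_singleton] at hz; rw [hz]; exact hy

/-- time and size along the tree -/
theorem tree3_time {X : ℕ} (t : ℕ) {y z : ℤ} (hz : z ∈ tree3 M n s1 s2 X t y) :
    ∃ k d : ℕ, s1 * d ≤ k ∧ k ≤ s2 * d ∧ tz^[k] z = y ∧ 3 ^ (n * d) * z ≤ 2 ^ k * y ∧
      2 ^ k * (y - 2 * 3 ^ n) ≤ 3 ^ (n * d) * z := by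
  have h3n : (0 : ℤ) < 3 ^ n := by positivity
  induction t generalizing y with
  | zero =>
    rw [tree3, mem_singleton] at hz
    refine ⟨0, 0, by simp, by simp, by rw [hz]; rfl, by rw [hz]; simp, ?_⟩
    rw [hz]
    simp only [pow_zero, one_mul, Nat.mul_zero]
    linarith
  | succ t ih =>
    rw [tree3] at hz
    split_ifs at hz with h
    · rw [mem_biUnion] at hz
      obtain ⟨l, hl, hz⟩ := hz
      obtain ⟨k, d, hk1, hk2, hk3, hk4, hk5⟩ := ih hz
      obtain ⟨hl1, hl2, hl3⟩ := mem_filter.1 hl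
      obtain ⟨h1, h2, h3, -, -⟩ := Pz_spec hl1
      obtain ⟨d1, -, -⟩ := ez_dyn l (fun a ha => (h2 a ha).1) y h3
      have h6 := ez_eq l y h3
      rw [h1] at h6
      have h8 := cc_le l (fun a ha => (h2 a ha).1)
      rw [h1] at h8
      have h8' : (cc l : ℤ) ≤ 3 ^ n * 2 ^ l.sum := by exact_mod_cast h8
      have h8'' : (0 : ℤ) ≤ (cc l : ℤ) := Int.natCast_nonneg _
      have hs' : (2 : ℤ) * 3 ^ n ≤ 2 ^ l.sum := by
        have : 2 * 3 ^ n ≤ 2 ^ l.sum := hs.trans (Nat.pow_le_pow_right (by norm_num) hl2)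
        exact_mod_cast this
      have h2k : (0 : ℤ) < 2 ^ k := by positivity
      refine ⟨l.sum + k, d + 1, ?_, ?_, ?_, ?_, ?_⟩
      · rw [Nat.mul_succ]; omega
      · rw [Nat.mul_succ]; omega
      · rw [Function.iterate_add_apply, hk3, d1]
      · have e1 : (3 : ℤ) ^ (n * (d + 1)) * z = 3 ^ n * (3 ^ (n * d) * z) := by
          rw [Nat.mul_succ, pow_add]; ring
        have e2 : (2 : ℤ) ^ (l.sum + k) * y = 2 ^ k * (2 ^ l.sum * y) := by
          rw [pow_add]; ring
        rw [e1, e2, h6]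
        calc (3 : ℤ) ^ n * (3 ^ (n * d) * z) ≤ 3 ^ n * (2 ^ k * ez l y) :=
              mul_le_mul_of_nonneg_left hk4 h3n.le
          _ ≤ 2 ^ k * (3 ^ n * ez l y + (cc l : ℤ)) := by nlinarith
      · have e1 : (3 : ℤ) ^ (n * (d + 1)) * z = 3 ^ n * (3 ^ (n * d) * z) := by
          rw [Nat.mul_succ, pow_add]; ring
        have e2 : (2 : ℤ) ^ (l.sum + k) * (y - 2 * 3 ^ n) =
            2 ^ k * (2 ^ l.sum * y - 2 ^ l.sum * (2 * 3 ^ n)) := by
          rw [pow_add]; ring
        rw [e1, e2, h6]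
        calc (2 : ℤ) ^ k * (3 ^ n * ez l y + (cc l : ℤ) - 2 ^ l.sum * (2 * 3 ^ n))
            ≤ 2 ^ k * (3 ^ n * (ez l y - 2 * 3 ^ n)) := by
              apply mul_le_mul_of_nonneg_left _ h2k.le
              have h9 : (3 : ℤ) ^ n * (2 * 3 ^ n) ≤ 3 ^ n * 2 ^ l.sum :=
                mul_le_mul_of_nonneg_left hs' h3n.le
              nlinarith
          _ = 3 ^ n * (2 ^ k * (ez l y - 2 * 3 ^ n)) := by ring
          _ ≤ 3 ^ n * (3 ^ (n * d) * z) := mul_le_mul_of_nonneg_left hk5 h3n.le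
    · rw [mem_singleton] at hz
      refine ⟨0, 0, by simp, by simp, by rw [hz]; rfl, by rw [hz]; simp, ?_⟩
      rw [hz]
      simp only [pow_zero, one_mul, Nat.mul_zero]
      linarith

theorem tree3_leaf {X : ℕ} (t : ℕ) {y z : ℤ} (hy : 4 * 3 ^ n ≤ y)
    (ht : 2 ^ t * (X : ℤ) < 3 ^ t * y) (hz : z ∈ tree3 M n s1 s2 X t y) :
    X < KK M n * ph M n z := by
  induction t generalizing y with
  | zero =>
    rw [tree3, mem_singleton] at hz
    rw [hz]
    have h1 : (X : ℤ) < y := by simpa using ht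
    have h2 : 1 ≤ KK M n := Nat.one_le_two_pow
    have h3 : X < ph M n y := by unfold ph; omega
    exact lt_of_lt_of_le h3 (Nat.le_mul_of_pos_left _ h2)
  | succ t ih =>
    rw [tree3] at hz
    split_ifs at hz with h
    · rw [mem_biUnion] at hz
      obtain ⟨l, hl, hz⟩ := hz
      have hge := ez_ge (Bz_sub hs hl) hy
      have h3n : (0 : ℤ) < 3 ^ n := by positivity
      refine ih (by linarith) ?_ hz
      have e1 : (3 : ℤ) ^ (t + 1) * y = 3 ^ t * (3 * y) := by ring
      have e2 : (2 : ℤ) ^ (t + 1) * (X : ℤ) = 2 * (2 ^ t * X) := by ring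
      rw [e1, e2] at ht
      have h4 : (3 : ℤ) ^ t * (3 * y) ≤ 3 ^ t * (2 * ez l y) :=
        mul_le_mul_of_nonneg_left hge (by positivity)
      linarith
    · rw [mem_singleton] at hz
      rw [hz]
      exact not_le.1 h

theorem tree3_sub {X : ℕ} (t : ℕ) {y z : ℤ} (hz : z ∈ tree3 M n s1 s2 X t y) :
    ∃ k : ℕ, tz^[k] z = y := by
  obtain ⟨k, d, -, -, h, -, -⟩ := tree3_time hs t hz
  exact ⟨k, h⟩

theorem tree3_card {β : ℝ} (hβ : 0 < β) (hn : 1 ≤ n)
    (H : ∀ y : ℕ, y % 3 ≠ 0 → 2 ≤ ∑ l ∈ BB M n s1 s2 y, wt β n l)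
    (X : ℕ) (t : ℕ) {y : ℤ} (hy : y % 3 ≠ 0) (hper : y ∉ Function.periodicPts tz) :
    ((KK M n : ℝ) ^ β)⁻¹ * min (((X : ℝ) / (ph M n y : ℝ)) ^ β) (2 ^ t) ≤
      ((tree3 M n s1 s2 X t y).card : ℝ) := by
  have hK1 : (1 : ℝ) ≤ (KK M n : ℝ) := by
    have : 1 ≤ KK M n := Nat.one_le_two_pow
    exact_mod_cast this
  have hKβ : 1 ≤ (KK M n : ℝ) ^ β := Real.one_le_rpow hK1 hβ.le
  have hK0 : 0 < (KK M n : ℝ) ^ β := by linarith
  induction t generalizing y with
  | zero =>
    rw [tree3, card_singleton, pow_zero, Nat.cast_one]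
    have h1 : min (((X : ℝ) / (ph M n y : ℝ)) ^ β) 1 ≤ 1 := min_le_right _ _
    calc ((KK M n : ℝ) ^ β)⁻¹ * min (((X : ℝ) / (ph M n y : ℝ)) ^ β) 1 ≤
          ((KK M n : ℝ) ^ β)⁻¹ * 1 := mul_le_mul_of_nonneg_left h1 (by positivity)
      _ ≤ 1 := by rw [mul_one]; exact inv_le_one_of_one_le₀ hKβ
  | succ t ih =>
    have hph : 0 < ph M n y := by
      unfold ph EC KK
      positivity
    have hph' : (0 : ℝ) < (ph M n y : ℝ) := by exact_mod_cast hph
    rw [tree3]
    split_ifs with h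
    · rw [card_biUnion]
      · push_cast
        set m : ℝ := min (((X : ℝ) / (ph M n y : ℝ)) ^ β) (2 ^ t) with hm
        have hm0 : 0 ≤ m := le_min (by positivity) (by positivity)
        have h1 : ∀ l ∈ Bz M n s1 s2 y, ((KK M n : ℝ) ^ β)⁻¹ * (wt β n l * m) ≤
            ((tree3 M n s1 s2 X t (ez l y)).card : ℝ) := by
          intro l hl'
          have hl := Qz_sub (Bz_sub hs hl')
          obtain ⟨h1, h2, h3, h4, h5⟩ := Pz_spec hl
          refine le_trans ?_ (ih h4 (ez_not_per hper hl))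
          apply mul_le_mul_of_nonneg_left _ (by positivity)
          have hw1 : wt β n l ≤ 1 := wt_le_one hβ.le hl
          have hw0 : 0 < wt β n l := wt_pos β n l
          apply le_min
          · have hph2 : 0 < ph M n (ez l y) := by
              unfold ph EC KK
              positivity
            have hph2' : (0 : ℝ) < (ph M n (ez l y) : ℝ) := by exact_mod_cast hph2
            have h6 : (3 : ℝ) ^ n * (ph M n (ez l y) : ℝ) ≤ 2 ^ l.sum * (ph M n y : ℝ) := by
              exact_mod_cast ph_step hn hl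
            have h7 : (3 : ℝ) ^ n / 2 ^ l.sum * ((X : ℝ) / (ph M n y : ℝ)) ≤
                (X : ℝ) / (ph M n (ez l y) : ℝ) := by
              rw [div_mul_div_comm, div_le_div_iff₀ (by positivity) hph2']
              nlinarith [Nat.cast_nonneg (α := ℝ) X]
            calc wt β n l * m ≤ wt β n l * ((X : ℝ) / (ph M n y : ℝ)) ^ β :=
                  mul_le_mul_of_nonneg_left (min_le_left _ _) hw0.le
              _ = ((3 : ℝ) ^ n / 2 ^ l.sum * ((X : ℝ) / (ph M n y : ℝ))) ^ β := by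
                  rw [wt, Real.mul_rpow (by positivity) (by positivity)]
              _ ≤ _ := Real.rpow_le_rpow (by positivity) h7 hβ.le
          · calc wt β n l * m ≤ 1 * m := mul_le_mul_of_nonneg_right hw1 hm0
              _ ≤ 2 ^ t := by rw [one_mul]; exact min_le_right _ _
        refine le_trans ?_ (sum_le_sum h1)
        rw [← mul_sum, ← sum_mul]
        apply mul_le_mul_of_nonneg_left _ (by positivity)
        have h2 : 2 ≤ ∑ l ∈ Bz M n s1 s2 y, wt β n l := by
          have h3 := H _ (hat_mod (n := n) hy)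
          rw [BB_eq hs] at h3
          exact h3
        calc min (((X : ℝ) / (ph M n y : ℝ)) ^ β) (2 ^ (t + 1)) ≤ 2 * m := by
              rw [hm, mul_min_of_nonneg _ _ (by norm_num : (0 : ℝ) ≤ 2)]
              apply min_le_min
              · have : 0 ≤ ((X : ℝ) / (ph M n y : ℝ)) ^ β := by positivity
                linarith
              · rw [pow_succ']
          _ ≤ _ := mul_le_mul_of_nonneg_right h2 hm0
      · intro l hl l' hl' hne
        rw [Function.onFun, disjoint_left]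
        intro z hz hz'
        obtain ⟨i, hi⟩ := tree3_sub hs t hz
        obtain ⟨j, hj⟩ := tree3_sub hs t hz'
        exact hne (disj hn hper (Qz_sub (Bz_sub hs hl)) (Qz_sub (Bz_sub hs hl')) hi hj)
    · rw [card_singleton, Nat.cast_one]
      have hX : (X : ℝ) / (ph M n y : ℝ) ≤ (KK M n : ℝ) := by
        rw [div_le_iff₀ hph']
        exact_mod_cast (not_le.1 h).le
      have h1 : min (((X : ℝ) / (ph M n y : ℝ)) ^ β) (2 ^ (t + 1)) ≤ (KK M n : ℝ) ^ β :=
        (min_le_left _ _).trans (Real.rpow_le_rpow (by positivity) hX hβ.le)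
      calc _ ≤ ((KK M n : ℝ) ^ β)⁻¹ * (KK M n : ℝ) ^ β :=
            mul_le_mul_of_nonneg_left h1 (by positivity)
        _ = 1 := inv_mul_cancel₀ hK0.ne'

end

/-- the first hitting time of `a`, when the trajectory passes the non periodic `b` -/
theorem first_hit {a z : ℕ} {b : ℤ} (hb : b ∉ Function.periodicPts tz) {k k0 : ℕ}
    (hk : tz^[k] (z : ℤ) = b) (hk0 : tz^[k0] b = (a : ℤ)) :
    ∃ k' : ℕ, k ≤ k' ∧ k' ≤ k + k0 ∧ tn^[k'] z = a ∧ ∀ j < k', tn^[j] z ≠ a := by
  classical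
  have hex : ∃ j, tn^[j] z = a := by
    refine ⟨k0 + k, ?_⟩
    have h1 := tn_iter_cast (k0 + k) z
    rw [Function.iterate_add_apply tz, hk, hk0] at h1
    exact_mod_cast h1
  refine ⟨Nat.find hex, ?_, ?_, Nat.find_spec hex, fun j hj => Nat.find_min hex hj⟩
  · by_contra hcon
    apply hb
    have hlt : Nat.find hex < k := not_le.1 hcon
    have h1 : tz^[Nat.find hex] (z : ℤ) = (a : ℤ) := by
      rw [← tn_iter_cast, Nat.find_spec hex]
    have h2 : tz^[k - Nat.find hex] (a : ℤ) = b := by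
      rw [← h1, ← Function.iterate_add_apply, Nat.sub_add_cancel hlt.le, hk]
    refine ⟨k - Nat.find hex + k0, by omega, ?_⟩
    unfold Function.IsPeriodicPt Function.IsFixedPt
    rw [Function.iterate_add_apply, hk0, h2]
  · apply Nat.find_min'
    have h1 := tn_iter_cast (k + k0) z
    rw [add_comm k k0, Function.iterate_add_apply tz, hk, hk0] at h1
    rw [add_comm k k0]
    exact_mod_cast h1

end Cnt

theorem count_two {β : ℝ} (hβ : 0 < β) {M n s1 s2 : ℕ} (hn : 1 ≤ n) (hs : 2 * 3 ^ n ≤ 2 ^ s1)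
    (H : ∀ y : ℕ, y % 3 ≠ 0 → 2 ≤ ∑ l ∈ BB M n s1 s2 y, wt β n l) :
    ∃ c C : ℝ, 0 < c ∧ 0 < C ∧ ∀ a x : ℕ, ¬ 3 ∣ a → a ≤ x →
      c * ((x : ℝ) / (a : ℝ)) ^ β ≤
        (Set.ncard {z : ℕ | z ≤ x ∧ c * (x : ℝ) ≤ (z : ℝ) ∧
          ∃ t k : ℕ, (fun m : ℕ => if m % 2 = 0 then m / 2 else (3 * m + 1) / 2)^[k] z = a ∧
            (∀ j < k, (fun m : ℕ => if m % 2 = 0 then m / 2 else (3 * m + 1) / 2)^[j] z ≠ a) ∧
            (s1 : ℝ) * t ≤ k + C ∧ (k : ℝ) ≤ s2 * t + C ∧
            |Real.log ((z : ℝ) / (a : ℝ)) - (k * Real.log 2 - n * t * Real.log 3)| ≤ C} : ℝ) := by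
  have H' : ∀ y : ℕ, y % 3 ≠ 0 → 2 ≤ W β M n y := fun y hy => by
    refine (H y hy).trans ?_
    rw [Cnt.BB_eq hs]
    exact sum_le_sum_of_subset_of_nonneg (filter_subset _ _) (fun l _ _ => (wt_pos β n l).le)
  have hKn : 1 ≤ Cnt.KK M n := Nat.one_le_two_pow
  have hK1 : (1 : ℝ) ≤ (Cnt.KK M n : ℝ) := by exact_mod_cast hKn
  set K' : ℕ := 2 ^ (2 * n + 2) * (Cnt.KK M n * (1 + Cnt.EC M n)) with hK'
  have hK'1 : 1 ≤ K' := Nat.mul_pos (by positivity) (Nat.mul_pos hKn (by omega))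
  have hK'r : (1 : ℝ) ≤ (K' : ℝ) := by exact_mod_cast hK'1
  have hlK : 0 ≤ Real.log (K' : ℝ) := Real.log_nonneg hK'r
  have hl2 : 0 < Real.log 2 := Real.log_pos (by norm_num)
  have hl21 : Real.log 2 ≤ 1 := by
    have := Real.log_two_lt_d9
    linarith
  set c1 : ℝ := ((Cnt.KK M n : ℝ) ^ β)⁻¹ * ((K' : ℝ) ^ β)⁻¹ with hc1
  have hc1pos : 0 < c1 := by positivity
  set ρ0 : ℝ := max (2 * (Cnt.KK M n : ℝ) * (Cnt.EC M n : ℝ)) (K' : ℝ) with hρ0
  have hρ0pos : 0 < ρ0 := lt_of_lt_of_le (by linarith) (le_max_right _ _)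
  set c : ℝ := min (min (ρ0 ^ β)⁻¹ ρ0⁻¹) (min c1 (2 * (Cnt.KK M n : ℝ))⁻¹) with hc
  have hcpos : 0 < c := by positivity
  set C : ℝ := ((M * n + (2 * n + 2) : ℕ) : ℝ) + 1 + Real.log (K' : ℝ) with hC
  have hCpos : 0 < C := by positivity
  refine ⟨c, C, hcpos, hCpos, fun a x ha3 hax => ?_⟩
  set f : ℕ → ℕ := fun m : ℕ => if m % 2 = 0 then m / 2 else (3 * m + 1) / 2 with hf
  have hftn : f = Cnt.tn := rfl
  set S : Set ℕ := {z : ℕ | z ≤ x ∧ c * (x : ℝ) ≤ (z : ℝ) ∧ ∃ t k : ℕ, f^[k] z = a ∧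
    (∀ j < k, f^[j] z ≠ a) ∧ (s1 : ℝ) * t ≤ k + C ∧ (k : ℝ) ≤ s2 * t + C ∧
    |Real.log ((z : ℝ) / (a : ℝ)) - (k * Real.log 2 - n * t * Real.log 3)| ≤ C} with hS
  have hfin : S.Finite := (Set.finite_Iic x).subset (fun m hm => hm.1)
  have ha1 : 1 ≤ a := by
    rcases Nat.eq_zero_or_pos a with h | h
    · subst h; exact absurd (dvd_zero 3) ha3
    · exact h
  have har : (1 : ℝ) ≤ (a : ℝ) := by exact_mod_cast ha1
  have ha0 : (0 : ℝ) < (a : ℝ) := by linarith
  have hx0 : (0 : ℝ) < (x : ℝ) := by exact_mod_cast lt_of_lt_of_le ha1 hax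
  set ρ : ℝ := (x : ℝ) / (a : ℝ) with hρ
  have hρ1 : 1 ≤ ρ := by
    rw [hρ, one_le_div ha0]
    exact_mod_cast hax
  have hρpos : 0 < ρ := by linarith
  rcases lt_or_ge ρ ρ0 with hcase | hcase
  · have hmem : a ∈ S := by
      refine ⟨hax, ?_, 0, 0, rfl, ?_, ?_, ?_, ?_⟩
      · have h1 : c ≤ ρ0⁻¹ := (min_le_left _ _).trans (min_le_right _ _)
        have h2 : (x : ℝ) ≤ ρ0 * a := by
          rw [hρ, div_lt_iff₀ ha0] at hcase
          exact hcase.le
        calc c * (x : ℝ) ≤ ρ0⁻¹ * (ρ0 * a) := mul_le_mul h1 h2 hx0.le (by positivity)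
          _ = a := by rw [← mul_assoc, inv_mul_cancel₀ hρ0pos.ne', one_mul]
      · intro j hj
        omega
      · simpa using hCpos.le
      · simpa using hCpos.le
      · rw [div_self ha0.ne', Real.log_one]
        simpa using hCpos.le
    have h1 : 1 ≤ S.ncard := by
      rw [Nat.one_le_iff_ne_zero, Ne, Set.ncard_eq_zero hfin]
      exact Set.nonempty_iff_ne_empty.1 ⟨a, hmem⟩
    have h2 : (1 : ℝ) ≤ (S.ncard : ℝ) := by exact_mod_cast h1
    refine le_trans ?_ h2
    calc c * ρ ^ β ≤ (ρ0 ^ β)⁻¹ * ρ0 ^ β := by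
          apply mul_le_mul ((min_le_left _ _).trans (min_le_left _ _)) _ (by positivity)
            (by positivity)
          exact Real.rpow_le_rpow hρpos.le hcase.le hβ.le
      _ = 1 := inv_mul_cancel₀ (by positivity)
  · have hρE : 2 * (Cnt.KK M n : ℝ) * (Cnt.EC M n : ℝ) ≤ ρ := (le_max_left _ _).trans hcase
    have hρK : (K' : ℝ) ≤ ρ := (le_max_right _ _).trans hcase
    have haz : (a : ℤ) % 3 ≠ 0 := by
      intro h
      apply ha3
      exact_mod_cast Int.dvd_of_emod_eq_zero h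
    have haz0 : (0 : ℤ) < (a : ℤ) := by exact_mod_cast ha1
    obtain ⟨b, hb3, hbp, hbs, hb4, hab, k0, hk0n, hk0⟩ := Cnt.exists_base2 hβ hn H' haz haz0
    have hbs' : Cnt.ph M n b ≤ K' * a := by
      refine hbs.trans ?_
      rw [hK', mul_assoc]
      apply Nat.mul_le_mul_left
      rw [mul_assoc]
      apply Nat.mul_le_mul_left
      unfold Cnt.ph
      have : (a : ℤ).natAbs = a := Int.natAbs_natCast a
      rw [this]
      have h3 : Cnt.EC M n ≤ Cnt.EC M n * a := Nat.le_mul_of_pos_right _ ha1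
      nlinarith
    have hbx : Cnt.ph M n b ≤ x := by
      have : ((K' * a : ℕ) : ℝ) ≤ (x : ℝ) := by
        push_cast
        rw [← le_div_iff₀ ha0]
        exact hρK
      exact hbs'.trans (by exact_mod_cast this)
    have hph : 0 < Cnt.ph M n b := by
      unfold Cnt.ph Cnt.EC Cnt.KK
      positivity
    have hph' : (0 : ℝ) < (Cnt.ph M n b : ℝ) := by exact_mod_cast hph
    have hb0 : 0 < b := lt_of_lt_of_le (by positivity) hb4
    have hb0r : (0 : ℝ) < (b : ℝ) := by exact_mod_cast hb0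
    have hbK : (b : ℝ) ≤ (K' : ℝ) * a := by
      have h1 : b ≤ (Cnt.ph M n b : ℤ) := by
        unfold Cnt.ph
        omega
      have h2 : b ≤ ((K' * a : ℕ) : ℤ) := h1.trans (by exact_mod_cast hbs')
      exact_mod_cast h2
    have habr : (a : ℝ) ≤ (b : ℝ) := by exact_mod_cast hab
    -- fuel
    obtain ⟨t1, ht1⟩ := pow_unbounded_of_one_lt (((x : ℝ) / (Cnt.ph M n b : ℝ)) ^ β)
      (by norm_num : (1 : ℝ) < 2)
    obtain ⟨t2, ht2⟩ := pow_unbounded_of_one_lt (x : ℝ) (by norm_num : (1 : ℝ) < 3 / 2)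
    set t : ℕ := max t1 t2 with ht
    have ht1' : ((x : ℝ) / (Cnt.ph M n b : ℝ)) ^ β ≤ 2 ^ t :=
      ht1.le.trans (pow_le_pow_right₀ (by norm_num) (le_max_left _ _))
    have ht2' : 2 ^ t * (x : ℤ) < 3 ^ t * b := by
      have h1 : (x : ℝ) < (3 / 2) ^ t :=
        lt_of_lt_of_le ht2 (pow_le_pow_right₀ (by norm_num) (le_max_right _ _))
      rw [div_pow, lt_div_iff₀ (by positivity)] at h1
      have h2 : (x : ℤ) * 2 ^ t < 3 ^ t := by exact_mod_cast h1
      have h3 : (3 : ℤ) ^ t ≤ 3 ^ t * b := le_mul_of_one_le_right (by positivity) hb0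
      linarith
    have h1 := Cnt.tree3_card hs hβ hn H x t hb3 hbp
    rw [min_eq_left ht1'] at h1
    set Tr := Cnt.tree3 M n s1 s2 x t b with hTr
    have h2 : c1 * ρ ^ β ≤ (Tr.card : ℝ) := by
      refine le_trans ?_ h1
      rw [hc1, mul_assoc]
      apply mul_le_mul_of_nonneg_left _ (by positivity)
      have h3 : ρ / K' ≤ (x : ℝ) / (Cnt.ph M n b : ℝ) := by
        rw [hρ, div_div, div_le_div_iff_of_pos_left hx0 (by positivity) hph']
        have : (Cnt.ph M n b : ℝ) ≤ ((K' * a : ℕ) : ℝ) := by exact_mod_cast hbs'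
        push_cast at this
        linarith
      calc ((K' : ℝ) ^ β)⁻¹ * ρ ^ β = (ρ / K') ^ β := by
            rw [Real.div_rpow hρpos.le (by positivity)]; ring
        _ ≤ _ := Real.rpow_le_rpow (by positivity) h3 hβ.le
    have hpos : ∀ z ∈ Tr, 0 < z := by
      intro z hz
      obtain ⟨k, hk⟩ := Cnt.tree3_sub hs t hz
      have : Cnt.tz^[k0 + k] z = (a : ℤ) := by
        rw [Function.iterate_add_apply, hk, hk0]
      exact Cnt.pos_of_iter this haz0
    have hmaps : ∀ z ∈ Tr, z.toNat ∈ S := by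
      intro z hzT
      have hz0 := hpos z hzT
      have hz0r : (0 : ℝ) < (z : ℝ) := by exact_mod_cast hz0
      have hzz : ((z.toNat : ℕ) : ℤ) = z := Int.toNat_of_nonneg hz0.le
      have hzr : ((z.toNat : ℕ) : ℝ) = (z : ℝ) := by exact_mod_cast congrArg (Int.cast (R := ℝ)) hzz
      have hsz := Cnt.tree3_size hs hn t hbx hzT
      have hlf := Cnt.tree3_leaf hs t hb4 ht2' hzT
      obtain ⟨k, d, hk1, hk2, hk3, hk4, hk5⟩ := Cnt.tree3_time hs t hzT
      obtain ⟨k', hkk', hk'k, hka, hkf⟩ := Cnt.first_hit (a := a) (z := z.toNat) hbp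
        (by rw [hzz]; exact hk3) hk0
      have hkr : (k : ℝ) ≤ k' := by exact_mod_cast hkk'
      have hkr' : (k' : ℝ) ≤ k + ((M * n + (2 * n + 2) : ℕ) : ℝ) := by
        have : k' ≤ k + (M * n + (2 * n + 2)) := by omega
        exact_mod_cast this
      refine ⟨?_, ?_, d, k', ?_, ?_, ?_, ?_, ?_⟩
      · unfold Cnt.ph at hsz
        omega
      · rw [hzr]
        have h3 : (x : ℝ) < (Cnt.KK M n : ℝ) * ((z : ℝ) + (Cnt.EC M n : ℝ)) := by
          have h4 : (x : ℝ) < (Cnt.KK M n : ℝ) * (Cnt.ph M n z : ℝ) := by exact_mod_cast hlf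
          have h5 : (Cnt.ph M n z : ℝ) = (z : ℝ) + (Cnt.EC M n : ℝ) := by
            unfold Cnt.ph
            push_cast
            rw [Nat.cast_natAbs, Int.cast_abs, abs_of_pos hz0r]
          rwa [h5] at h4
        have h6 : 2 * (Cnt.KK M n : ℝ) * (Cnt.EC M n : ℝ) ≤ (x : ℝ) := by
          refine hρE.trans ?_
          rw [hρ]
          exact div_le_self hx0.le har
        have h7 : c ≤ (2 * (Cnt.KK M n : ℝ))⁻¹ := (min_le_right _ _).trans (min_le_right _ _)
        calc c * (x : ℝ) ≤ (2 * (Cnt.KK M n : ℝ))⁻¹ * (2 * (Cnt.KK M n : ℝ) * (z : ℝ)) :=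
              mul_le_mul h7 (by linarith) hx0.le (by positivity)
          _ = z := by rw [← mul_assoc, inv_mul_cancel₀ (by positivity), one_mul]
      · rw [hftn]; exact hka
      · rw [hftn]; exact hkf
      · have h3 : (s1 : ℝ) * d ≤ k := by exact_mod_cast hk1
        linarith
      · have h3 : (k : ℝ) ≤ s2 * d := by exact_mod_cast hk2
        rw [hC]
        linarith
      · rw [hzr]
        have hlog3 : Real.log ((3 : ℝ) ^ (n * d)) = n * d * Real.log 3 := by
          rw [Real.log_pow]; push_cast; ring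
        have hlog2 : Real.log ((2 : ℝ) ^ k) = k * Real.log 2 := Real.log_pow _ _
        -- upper bound for z
        have h3 : (3 : ℝ) ^ (n * d) * z ≤ 2 ^ k * b := by exact_mod_cast hk4
        have h4 : (2 : ℝ) ^ k * b ≤ 2 * (3 ^ (n * d) * z) := by
          have h5 : (2 : ℤ) ^ k * b ≤ 2 * (3 ^ (n * d) * z) := by
            have h6 : (2 : ℤ) ^ k * b ≤ 2 ^ k * (2 * (b - 2 * 3 ^ n)) :=
              mul_le_mul_of_nonneg_left (by linarith) (by positivity)
            linarith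
          exact_mod_cast h5
        have h3n0 : (0 : ℝ) < 3 ^ (n * d) := by positivity
        have h2k0 : (0 : ℝ) < 2 ^ k := by positivity
        have g1 : n * d * Real.log 3 + Real.log z ≤ k * Real.log 2 + Real.log b := by
          have := Real.log_le_log (mul_pos h3n0 hz0r) h3
          rw [Real.log_mul h3n0.ne' hz0r.ne', Real.log_mul h2k0.ne' hb0r.ne', hlog3, hlog2] at this
          exact this
        have g2 : k * Real.log 2 + Real.log b ≤
            Real.log 2 + (n * d * Real.log 3 + Real.log z) := by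
          have := Real.log_le_log (mul_pos h2k0 hb0r) h4
          rw [Real.log_mul (by norm_num : (2 : ℝ) ≠ 0) (mul_pos h3n0 hz0r).ne',
            Real.log_mul h3n0.ne' hz0r.ne', Real.log_mul h2k0.ne' hb0r.ne', hlog3, hlog2] at this
          exact this
        have g3 : Real.log a ≤ Real.log b := Real.log_le_log ha0 habr
        have g4 : Real.log b ≤ Real.log K' + Real.log a := by
          have hK0 : (0 : ℝ) < K' := by linarith
          have := Real.log_le_log hb0r hbK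
          rwa [Real.log_mul hK0.ne' ha0.ne'] at this
        have g5 : (k : ℝ) * Real.log 2 ≤ k' * Real.log 2 :=
          mul_le_mul_of_nonneg_right hkr hl2.le
        have g6 : (k' : ℝ) * Real.log 2 ≤ k * Real.log 2 +
            ((M * n + (2 * n + 2) : ℕ) : ℝ) := by
          have e1 := mul_le_mul_of_nonneg_right hkr' hl2.le
          have e2 : ((M * n + (2 * n + 2) : ℕ) : ℝ) * Real.log 2 ≤
              ((M * n + (2 * n + 2) : ℕ) : ℝ) * 1 :=
            mul_le_mul_of_nonneg_left hl21 (Nat.cast_nonneg _)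
          rw [add_mul] at e1
          linarith
        rw [Real.log_div hz0r.ne' ha0.ne', abs_le, hC]
        constructor
        · linarith
        · have : (0 : ℝ) ≤ ((M * n + (2 * n + 2) : ℕ) : ℝ) := Nat.cast_nonneg _
          linarith
    have hcard : Tr.card ≤ S.ncard := by
      have h3 : (Tr.image Int.toNat).card = Tr.card := by
        apply card_image_of_injOn
        intro z hz w hw hzw
        have hz0 := hpos z hz
        have hw0 := hpos w hw
        have hzw' : z.toNat = w.toNat := hzw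
        omega
      rw [← h3, ← Set.ncard_coe_finset]
      apply Set.ncard_le_ncard _ hfin
      intro m hm
      rw [mem_coe, mem_image] at hm
      obtain ⟨z, hz, rfl⟩ := hm
      exact hmaps z hz
    have hcard' : (Tr.card : ℝ) ≤ (S.ncard : ℝ) := by exact_mod_cast hcard
    refine le_trans ?_ hcard'
    refine le_trans ?_ h2
    exact mul_le_mul_of_nonneg_right ((min_le_right _ _).trans (min_le_left _ _)) (by positivity)

end H62w
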