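import Pool.Agent.Lib.H62w.Defs

set_option autoImplicit false

/-!
Version 2 (sharp constant): words with at least `(2 - 1/M) k` halving steps, weight
`2 ^ (-β (M |l| - (2 M - 1) k))`. Everything about `va`, `en`, `words`, `cls`, `full`, `nat1`, `entU`,
`mu`, `TT` is taken from `H62w`.
-/

open Finset

namespace H62x
open H62w

/-- Admissible words of length `k` at `y`. -/
def PP (M k y : ℕ) : Finset (List ℕ) :=
  (words M k).filter (fun l => va l y ∧ en l y % 3 ≠ 0 ∧ (2 * M - 1) * k ≤ M * l.sum)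

/-- Weight. -/
noncomputable def wt (β : ℝ) (M k : ℕ) (l : List ℕ) : ℝ :=
  ((2 : ℝ) ^ ((2 * M - 1) * k) / (2 : ℝ) ^ (M * l.sum)) ^ β

/-- Weighted number of admissible words. -/
noncomputable def W (β : ℝ) (M k y : ℕ) : ℝ := ∑ l ∈ PP M k y, wt β M k l

/-- Worst case. -/
noncomputable def mm (β : ℝ) (M k : ℕ) : ℝ := (U k).inf' (U_nonempty k) (W β M k)

/-- Worst case exponential growth rate. -/
noncomputable def RR (β : ℝ) (M : ℕ) : ℝ := sSup {x : ℝ | ∃ k : ℕ, 1 ≤ k ∧ x = Real.log (mm β M k) / k}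

/-- Mean of `log W` over the class `v` mod `3`. -/
noncomputable def av (β : ℝ) (M n v : ℕ) : ℝ :=
  (∑ y ∈ (range (3 ^ (n + 1))).filter (fun y => y % 3 = v), Real.log (W β M n y)) / 3 ^ n

/-- The smaller of the two class means. -/
noncomputable def AA (β : ℝ) (M n : ℕ) : ℝ := min (av β M n 1) (av β M n 2)

/-- Near-worst residues mod `3^(m+1)`. -/
noncomputable def EE (β : ℝ) (M m : ℕ) (ε : ℝ) : Finset ℕ :=
  (U m).filter (fun y => Real.log (W β M m y) ≤ (RR β M + ε) * m)

end H62x
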