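import Pool.Agent.Lib.H62x.Defs

set_option autoImplicit false
open Finset
namespace H62x
open H62w

/-- Every unit has at least `exp ((log (4/3) - κ) n)` admissible words of length `n` with sum `≤ (2+κ) n`. -/
theorem cert_two (κ : ℝ) (hκ : 0 < κ) : ∃ M : ℕ, 7 ≤ M ∧ 1 / κ ≤ M ∧ ∃ n0 : ℕ, ∀ n : ℕ, n0 ≤ n →
    ∀ y : ℕ, y % 3 ≠ 0 → Real.exp ((Real.log (4 / 3) - κ) * n) ≤
      (((PP M n y).filter (fun l => (l.sum : ℝ) ≤ (2 + κ) * n)).card : ℝ) := by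
  sorry

end H62x
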