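import Pool.Agent.Lib.H62x.Defs

set_option autoImplicit false
open Finset
namespace H62x
open H62w

/-- Typical growth, sharp rate `log (4/3)`. -/
theorem typical (κ : ℝ) (hκ : 0 < κ) : ∃ β0 : ℝ, 0 < β0 ∧ ∀ β : ℝ, 0 < β → β ≤ β0 → ∃ M0 : ℕ, ∀ M : ℕ, M0 ≤ M →
    ∀ η : ℝ, 0 < η → ∃ n0 : ℕ, ∀ n : ℕ, n0 ≤ n → ∀ v : ℕ, v = 1 ∨ v = 2 →
        (((range (3 ^ (n + 1))).filter (fun y => y % 3 = v ∧
          W β M n y < Real.exp ((Real.log (4 / 3) - κ) * n))).card : ℝ) ≤ η * 3 ^ n := by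
  sorry

end H62x
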